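import Pool.Agent.H77.GQ.Stm
import Pool.Agent.H64.TF.CFS
import Pool.Agent.H27.TF.Pl3
import Pool.Agent.H22.TF.Mdt
import Pool.Agent.H77.TF.Pri

set_option autoImplicit false

open MvPolynomial Module Pool.Agent.H77.TF

namespace Pool.Agent.H56.GQ

/-- The coefficient of a homogeneous logarithmic field at a basis field of larger degree is zero. -/
theorem repr_eq_zero {K : Type} [Field K] {l : ℕ} {ν : Type} {A : ν → Fin l → K} {e : Fin l → ℕ}
    (b : Basis (Fin l) (MvPolynomial (Fin l) K) (LD A))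
    (hb : ∀ j i, ((b j : Fin l → MvPolynomial (Fin l) K) i).IsHomogeneous (e j))
    (v : LD A) {d : ℕ} (hv : ∀ i, ((v : Fin l → MvPolynomial (Fin l) K) i).IsHomogeneous d)
    {j : Fin l} (hj : d < e j) : b.repr v j = 0 := by
  classical
  let c : Fin l → MvPolynomial (Fin l) K := fun j =>
    if e j ≤ d then homogeneousComponent (d - e j) (b.repr v j) else 0
  have h1 : (v : Fin l → MvPolynomial (Fin l) K) = ∑ j, b.repr v j •
      (b j : Fin l → MvPolynomial (Fin l) K) := by
    have h2 := congrArg Subtype.val (b.sum_repr v)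
    refine h2.symm.trans ?_
    rw [Submodule.coe_sum]
    rfl
  have h2 : v = ∑ j, c j • b j := by
    apply Subtype.ext
    rw [Submodule.coe_sum]
    funext i
    have h3 := congrArg (homogeneousComponent d) (congrFun h1 i)
    rw [homogeneousComponent_of_mem (n := d) (hv i), if_pos rfl, Finset.sum_apply, map_sum] at h3
    rw [h3, Finset.sum_apply]
    refine Finset.sum_congr rfl fun j _ => ?_
    rw [Pi.smul_apply, smul_eq_mul]
    exact Pool.Agent.H64.TF.comp_mul _ _ (hb j i)
  have h4 : b.repr v j = c j := by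
    conv_lhs => rw [h2]
    rw [b.repr_sum_self]
  rw [h4]
  exact if_neg (by omega)

theorem lin_eq {K : Type} [Field K] (a : Fin 3 → K) : evl a (fun i => X i) = lin a := rfl

theorem mlt (hNUQ : Pool.Agent.H77.GQ.S_NUQ) : Pool.Agent.H77.GQ.S_MLT := by
  classical
  intro K _ n A a b hA hab hE W hW
  have hn := (hNUQ K n A a b hA hE).1
  obtain ⟨B, hB⟩ := hE
  obtain ⟨x, hx, hWx⟩ := Pool.Agent.H27.TF.exists_normal W hW
  by_contra hm
  push Not at hm
  -- the product of the forms which do not contain the point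
  let s : Finset (Fin n) := Finset.univ.filter fun i => A i ∉ W
  let P : MvPolynomial (Fin 3) K := ∏ i ∈ s, lin (A i)
  have hcard : s.card + Nat.card {i // A i ∈ W} = n := by
    rw [Nat.card_eq_fintype_card, Fintype.card_subtype, add_comm]
    have := Finset.card_filter_add_card_filter_not (s := (Finset.univ : Finset (Fin n))) (fun i => A i ∈ W)
    rw [Finset.card_univ, Fintype.card_fin] at this
    exact this
  have hP0 : P ≠ 0 := Finset.prod_ne_zero_iff.2 fun i _ => lin_ne_zero (hA.1 i)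
  have hPh : P.IsHomogeneous s.card := by
    have h3 := IsHomogeneous.prod s (fun i => lin (A i)) (fun _ => 1)
      fun i _ => Pool.Agent.H22.TF.lin_hom (A i)
    rw [Finset.sum_const, smul_eq_mul, mul_one] at h3
    exact h3
  -- the field `P x`
  have hψ : (fun i => P * C (x i) : Fin 3 → MvPolynomial (Fin 3) K) ∈ LD A := by
    intro i
    have h1 : evl (A i) (fun j => P * C (x j) : Fin 3 → MvPolynomial (Fin 3) K) = P * C (A i ⬝ᵥ x) := by
      unfold evl dotProduct
      rw [map_sum, Finset.mul_sum]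
      refine Finset.sum_congr rfl fun j _ => ?_
      rw [C_mul]
      ring
    rw [h1]
    by_cases h : A i ∈ W
    · rw [(hWx (A i)).1 h, C_0, mul_zero]
      exact dvd_zero _
    · refine Dvd.dvd.mul_right ?_ _
      exact Finset.dvd_prod_of_mem _ (by simp [s, h])
  have hθ : (fun i => X i : Fin 3 → MvPolynomial (Fin 3) K) ∈ LD A := by
    intro i
    rw [lin_eq]
  have hψh : ∀ i, ((⟨_, hψ⟩ : LD A) : Fin 3 → MvPolynomial (Fin 3) K) i |>.IsHomogeneous s.card := by
    intro i
    have := hPh.mul (isHomogeneous_C (Fin 3) (x i))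
    rw [add_zero] at this
    exact this
  have hθh : ∀ i, ((⟨_, hθ⟩ : LD A) : Fin 3 → MvPolynomial (Fin 3) K) i |>.IsHomogeneous 1 :=
    fun i => isHomogeneous_X K i
  have hsa : s.card < a := by omega
  obtain ⟨i₀, hi₀⟩ : ∃ i, x i ≠ 0 := by
    by_contra h
    push Not at h
    exact hx (funext h)
  have hexp : ∀ v : LD A, (v : Fin 3 → MvPolynomial (Fin 3) K) =
      ∑ j, B.repr v j • (B j : Fin 3 → MvPolynomial (Fin 3) K) := by
    intro v
    have h2 := congrArg Subtype.val (B.sum_repr v)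
    refine h2.symm.trans ?_
    rw [Submodule.coe_sum]
    rfl
  have hψ1 : B.repr ⟨_, hψ⟩ 1 = 0 := repr_eq_zero B hB _ hψh (j := 1) (by simpa using hsa)
  have hψ2 : B.repr ⟨_, hψ⟩ 2 = 0 := repr_eq_zero B hB _ hψh (j := 2)
    (by simpa using lt_of_lt_of_le hsa hab)
  have hψe := hexp ⟨_, hψ⟩
  rw [Fin.sum_univ_three, hψ1, hψ2, zero_smul, zero_smul, add_zero, add_zero] at hψe
  have hψi : ∀ i, P * C (x i) = B.repr ⟨_, hψ⟩ 0 * (B 0 : Fin 3 → MvPolynomial (Fin 3) K) i := by
    intro i
    exact congrFun hψe i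
  have hcontra : B.repr ⟨_, hψ⟩ 0 ≠ 0 := by
    intro h
    have h1 := hψi i₀
    rw [h, zero_mul] at h1
    rcases mul_eq_zero.1 h1 with h2 | h2
    · exact hP0 h2
    · exact hi₀ (by simpa using h2)
  by_cases ha : 1 < a
  · have hθ1 : B.repr ⟨_, hθ⟩ 1 = 0 := repr_eq_zero B hB _ hθh (j := 1) (by simpa using ha)
    have hθ2 : B.repr ⟨_, hθ⟩ 2 = 0 := repr_eq_zero B hB _ hθh (j := 2)
      (by simpa using lt_of_lt_of_le ha hab)
    have hθe := hexp ⟨_, hθ⟩
    rw [Fin.sum_univ_three, hθ1, hθ2, zero_smul, zero_smul, add_zero, add_zero] at hθe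
    have hθi : ∀ i : Fin 3, (X i : MvPolynomial (Fin 3) K) =
        B.repr ⟨_, hθ⟩ 0 * (B 0 : Fin 3 → MvPolynomial (Fin 3) K) i := fun i => congrFun hθe i
    set f := B.repr ⟨_, hψ⟩ 0 with hf
    set g := B.repr ⟨_, hθ⟩ 0 with hg
    -- `g P x_i = f X_i`
    have h1 : ∀ i, g * (P * C (x i)) = f * X i := by
      intro i
      rw [hψi i, hθi i]
      ring
    obtain ⟨j, hj⟩ : ∃ j, j ≠ i₀ := exists_ne i₀
    have h2 : f * (X i₀ * C (x j) - X j * C (x i₀)) = 0 := by
      have e1 := h1 i₀
      have e2 := h1 j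
      calc f * (X i₀ * C (x j) - X j * C (x i₀)) = (f * X i₀) * C (x j) - (f * X j) * C (x i₀) := by ring
        _ = 0 := by rw [← e1, ← e2]; ring
    rcases mul_eq_zero.1 h2 with h3 | h3
    · exact hcontra h3
    · have h4 := congrArg (MvPolynomial.eval (Pi.single j 1 : Fin 3 → K)) h3
      simp [Pi.single_eq_of_ne hj.symm] at h4
      exact hi₀ h4
  · have h5 : B.repr ⟨_, hψ⟩ 0 = 0 := by
      refine repr_eq_zero B hB _ hψh (j := 0) ?_
      have : s.card < 1 := by omega
      simpa using this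
    exact hcontra h5

end Pool.Agent.H56.GQ
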